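import Mathlib

/-!
R2b: Abel's lemma (second mean value inequality), by the layer cake formula.
-/

set_option autoImplicit false

open MeasureTheory Set

namespace Pool.Agent.Helper24.VS

/-- the inner integral over a superlevel set of an antitone function -/
lemma level_nonneg (L : ℝ) (hL : 0 ≤ L) (p q : ℝ → ℝ) (hp : Antitone p)
    (h : ∀ b ∈ Icc 0 L, 0 ≤ ∫ x in (0:ℝ)..b, q x) (s : ℝ) :
    0 ≤ ∫ x in Ioc 0 L, (if s < p x then q x else 0) := by
  by_cases hB : ({x | x ∈ Icc 0 L ∧ s < p x}).Nonempty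
  · set B := {x | x ∈ Icc 0 L ∧ s < p x} with hBdef
    have hBb : BddAbove B := ⟨L, fun x hx => hx.1.2⟩
    set b := sSup B with hb
    have hb0 : 0 ≤ b := by
      obtain ⟨x, hx⟩ := hB
      exact hx.1.1.trans (le_csSup hBb hx)
    have hbL : b ≤ L := csSup_le hB (fun x hx => hx.1.2)
    have key : ∫ x in Ioc 0 L, (if s < p x then q x else 0) = ∫ x in Ioc 0 b, q x := by
      rw [← integral_indicator measurableSet_Ioc, ← integral_indicator measurableSet_Ioc]
      apply integral_congr_ae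
      have : ∀ᵐ x : ℝ, x ≠ b := by
        rw [ae_iff]; simp
      filter_upwards [this] with x hx
      by_cases hx1 : x ∈ Ioc 0 L
      · rw [indicator_of_mem hx1]
        rcases lt_or_gt_of_ne hx with hlt | hgt
        · obtain ⟨y, hy, hxy⟩ := exists_lt_of_lt_csSup hB hlt
          rw [if_pos (lt_of_lt_of_le hy.2 (hp hxy.le)), indicator_of_mem]
          exact ⟨hx1.1, hlt.le⟩
        · have h1 : ¬ s < p x := by
            intro hc
            exact absurd (le_csSup hBb ⟨⟨hx1.1.le, hx1.2⟩, hc⟩) (not_le.mpr hgt)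
          rw [if_neg h1, indicator_of_notMem]
          intro h2; exact absurd h2.2 (not_le.mpr hgt)
      · rw [indicator_of_notMem hx1, indicator_of_notMem]
        intro h2; exact hx1 ⟨h2.1, h2.2.trans hbL⟩
    rw [key, ← intervalIntegral.integral_of_le hb0]
    exact h b ⟨hb0, hbL⟩
  · rw [Set.not_nonempty_iff_eq_empty] at hB
    rw [setIntegral_eq_zero_of_forall_eq_zero]
    intro x hx
    rw [if_neg]
    intro hc
    have : x ∈ {x | x ∈ Icc 0 L ∧ s < p x} := ⟨⟨hx.1.le, hx.2⟩, hc⟩
    rw [hB] at this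
    exact this

lemma abel_nonneg_aux (L : ℝ) (hL : 0 ≤ L) (p q : ℝ → ℝ) (hp : Antitone p)
    (hp0 : ∀ x, 0 ≤ p x) (P : ℝ) (hP : ∀ x, p x ≤ P) (hq : IntegrableOn q (Ioc 0 L))
    (h : ∀ b ∈ Icc 0 L, 0 ≤ ∫ x in (0:ℝ)..b, q x) :
    0 ≤ ∫ x in Ioc 0 L, p x * q x := by
  have hSm : MeasurableSet {z : ℝ × ℝ | z.2 < p z.1} :=
    measurableSet_lt measurable_snd (hp.measurable.comp measurable_fst)
  have hint : Integrable (Function.uncurry (fun (x s : ℝ) => if s < p x then q x else 0))
      ((volume.restrict (Ioc 0 L)).prod (volume.restrict (Ioc 0 P))) := by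
    have h1 : Integrable (fun z : ℝ × ℝ => q z.1)
        ((volume.restrict (Ioc 0 L)).prod (volume.restrict (Ioc 0 P))) := by
      exact Integrable.comp_fst hq _
    have h2 := h1.indicator hSm
    refine h2.congr (Filter.Eventually.of_forall (fun z => ?_))
    simp only [indicator, mem_setOf_eq, Function.uncurry]
  have hinner : ∀ x, ∫ s in Ioc 0 P, (if s < p x then q x else 0) = p x * q x := by
    intro x
    have : ∫ s in Ioc 0 P, (if s < p x then q x else 0) = ∫ s in Ioo 0 (p x), q x := by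
      rw [← integral_indicator measurableSet_Ioc, ← integral_indicator measurableSet_Ioo]
      congr 1
      funext s
      by_cases hs : s ∈ Ioc 0 P
      · rw [indicator_of_mem hs]
        by_cases hs2 : s < p x
        · rw [if_pos hs2, indicator_of_mem]
          exact ⟨hs.1, hs2⟩
        · rw [if_neg hs2, indicator_of_notMem]
          intro hc; exact hs2 hc.2
      · rw [indicator_of_notMem hs, indicator_of_notMem]
        intro hc; exact hs ⟨hc.1, hc.2.le.trans (hP x)⟩
    rw [this]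
    simp [hp0 x]
  calc 0 ≤ ∫ s in Ioc 0 P, ∫ x in Ioc 0 L, (if s < p x then q x else 0) :=
        integral_nonneg (fun s => level_nonneg L hL p q hp h s)
    _ = ∫ x in Ioc 0 L, ∫ s in Ioc 0 P, (if s < p x then q x else 0) :=
        (integral_integral_swap hint).symm
    _ = ∫ x in Ioc 0 L, p x * q x := by simp only [hinner]

/-- R2b: Abel's lemma (second mean value theorem). -/
theorem abel_nonneg (L : ℝ) (hL : 0 ≤ L) (p q : ℝ → ℝ) (hp : AntitoneOn p (Icc 0 L))
    (hp0 : ∀ x ∈ Icc 0 L, 0 ≤ p x) (hq : IntervalIntegrable q volume 0 L)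
    (h : ∀ b ∈ Icc 0 L, 0 ≤ ∫ x in (0:ℝ)..b, q x) :
    0 ≤ ∫ x in (0:ℝ)..L, p x * q x := by
  set p' : ℝ → ℝ := fun x => p (max 0 (min x L)) with hp'
  have hmem : ∀ x, max 0 (min x L) ∈ Icc 0 L := fun x =>
    ⟨le_max_left _ _, max_le hL (min_le_right _ _)⟩
  have h1 : Antitone p' := by
    intro x y hxy
    exact hp (hmem x) (hmem y) (max_le_max le_rfl (min_le_min hxy le_rfl))
  have h2 : ∀ x, 0 ≤ p' x := fun x => hp0 _ (hmem x)
  have h3 : ∀ x, p' x ≤ p 0 := fun x => hp ⟨le_rfl, hL⟩ (hmem x) (hmem x).1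
  rw [intervalIntegral.integral_of_le hL]
  have h4 : ∫ x in Ioc 0 L, p x * q x = ∫ x in Ioc 0 L, p' x * q x := by
    refine setIntegral_congr_fun measurableSet_Ioc (fun x hx => ?_)
    simp only [hp']
    rw [min_eq_left hx.2, max_eq_right hx.1.le]
  rw [h4]
  exact abel_nonneg_aux L hL p' q h1 h2 (p 0) h3
    ((intervalIntegrable_iff_integrableOn_Ioc_of_le hL).mp hq) h

end Pool.Agent.Helper24.VS
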