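import Mathlib

/-!
R2a: `N_b(t) / t` is antitone.
-/

set_option autoImplicit false

open MeasureTheory Set Real

namespace Pool.Agent.Helper24.VS

lemma sinh_le_mul_cosh {x : ℝ} (hx : 0 ≤ x) : sinh x ≤ x * cosh x := by
  have hmono : MonotoneOn (fun y => y * cosh y - sinh y) (Ici 0) := by
    apply monotoneOn_of_deriv_nonneg (convex_Ici 0)
    · exact (continuous_id.mul continuous_cosh).continuousOn.sub continuous_sinh.continuousOn
    · intro y _
      exact ((differentiableAt_id.mul differentiableAt_cosh).sub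
        differentiableAt_sinh).differentiableWithinAt
    · intro y hy
      rw [interior_Ici] at hy
      have h1 : HasDerivAt (fun y => y * cosh y - sinh y) (1 * cosh y + y * sinh y - cosh y) y :=
        ((hasDerivAt_id y).mul (hasDerivAt_cosh y)).sub (hasDerivAt_sinh y)
      rw [h1.deriv]
      have : 0 ≤ y * sinh y := mul_nonneg (le_of_lt hy) (sinh_nonneg_iff.mpr (le_of_lt hy))
      linarith
  have := hmono (mem_Ici.mpr le_rfl) (mem_Ici.mpr hx) hx
  simp at this
  linarith

lemma mul_sinh_le {Q P : ℝ} (hQ : 0 ≤ Q) (hQP : Q ≤ P) : P * sinh Q ≤ Q * sinh P := by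
  have hmono : MonotoneOn (fun y => Q * sinh y - y * sinh Q) (Ici Q) := by
    apply monotoneOn_of_deriv_nonneg (convex_Ici Q)
    · exact (continuous_const.mul continuous_sinh).continuousOn.sub
        (continuous_id.mul continuous_const).continuousOn
    · intro y _
      exact ((differentiableAt_sinh.const_mul Q).sub
        (differentiableAt_id.mul_const (sinh Q))).differentiableWithinAt
    · intro y hy
      rw [interior_Ici] at hy
      have h1 : HasDerivAt (fun y => Q * sinh y - y * sinh Q) (Q * cosh y - 1 * sinh Q) y :=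
        ((hasDerivAt_sinh y).const_mul Q).sub ((hasDerivAt_id y).mul_const (sinh Q))
      rw [h1.deriv]
      have h2 : cosh Q ≤ cosh y := by
        rw [cosh_le_cosh, abs_of_nonneg hQ, abs_of_nonneg (hQ.trans (le_of_lt hy))]
        exact le_of_lt hy
      have h3 := sinh_le_mul_cosh hQ
      have h4 : Q * cosh Q ≤ Q * cosh y := mul_le_mul_of_nonneg_left h2 hQ
      linarith
  have := hmono (mem_Ici.mpr le_rfl) (mem_Ici.mpr hQP) hQP
  simp only at this
  linarith

/-- the main inequality in cross-multiplied form -/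
lemma cross_ineq {c x y : ℝ} (hc : -1 ≤ c) (hc1 : c ≤ 1) (hx : 0 ≤ x) (hxy : x ≤ y) :
    x * sinh y * (cosh x - c) ≤ y * sinh x * (cosh y - c) := by
  have hy : 0 ≤ y := hx.trans hxy
  -- half-angle formulas
  set a := x / 2 with ha
  set b := y / 2 with hb
  have ha0 : 0 ≤ a := by positivity
  have hab : a ≤ b := by simp only [ha, hb]; linarith
  have hb0 : 0 ≤ b := ha0.trans hab
  have hx2 : x = 2 * a := by simp only [ha]; ring
  have hy2 : y = 2 * b := by simp only [hb]; ring
  have e1 : sinh x = 2 * sinh a * cosh a := by rw [hx2, sinh_two_mul]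
  have e2 : sinh y = 2 * sinh b * cosh b := by rw [hy2, sinh_two_mul]
  have e3 : cosh x = 2 * cosh a ^ 2 - 1 := by
    rw [hx2, cosh_two_mul]; have := cosh_sq a; linarith
  have e4 : cosh y = 2 * cosh b ^ 2 - 1 := by
    rw [hy2, cosh_two_mul]; have := cosh_sq b; linarith
  have sa : 0 ≤ sinh a := sinh_nonneg_iff.mpr ha0
  have sb : 0 ≤ sinh b := sinh_nonneg_iff.mpr hb0
  have ca : 0 < cosh a := cosh_pos a
  have cb : 0 < cosh b := cosh_pos b
  -- c = 1
  have f1 : x * sinh y * (cosh x - 1) ≤ y * sinh x * (cosh y - 1) := by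
    have h1 : 0 ≤ sinh b * cosh a - sinh a * cosh b := by
      have : sinh b * cosh a - sinh a * cosh b = sinh (b - a) := by rw [sinh_sub]; ring
      rw [this]; exact sinh_nonneg_iff.mpr (by linarith)
    have h2 : a * (sinh a * cosh b) ≤ b * (sinh b * cosh a) := by
      calc a * (sinh a * cosh b) ≤ b * (sinh a * cosh b) :=
            mul_le_mul_of_nonneg_right hab (by positivity)
        _ ≤ b * (sinh b * cosh a) := mul_le_mul_of_nonneg_left (by linarith) hb0
    have e3' : cosh x - 1 = 2 * sinh a ^ 2 := by rw [e3]; have := cosh_sq a; linarith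
    have e4' : cosh y - 1 = 2 * sinh b ^ 2 := by rw [e4]; have := cosh_sq b; linarith
    rw [e3', e4', e1, e2, hx2, hy2]
    have h3 : 0 ≤ 8 * (sinh a * sinh b) := by positivity
    have := mul_le_mul_of_nonneg_left h2 h3
    nlinarith [this]
  have f2 : x * sinh y * (cosh x + 1) ≤ y * sinh x * (cosh y + 1) := by
    have h1 : (a + b) * sinh (b - a) ≤ (b - a) * sinh (a + b) :=
      mul_sinh_le (by linarith) (by linarith)
    rw [sinh_sub, sinh_add] at h1
    have h2 : a * (sinh b * cosh a) ≤ b * (sinh a * cosh b) := by nlinarith [h1]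
    have e3' : cosh x + 1 = 2 * cosh a ^ 2 := by rw [e3]; ring
    have e4' : cosh y + 1 = 2 * cosh b ^ 2 := by rw [e4]; ring
    rw [e3', e4', e1, e2, hx2, hy2]
    have h3 : 0 ≤ 8 * (cosh a * cosh b) := by positivity
    have := mul_le_mul_of_nonneg_left h2 h3
    nlinarith [this]
  nlinarith [mul_le_mul_of_nonneg_left f1 (by linarith : 0 ≤ (1 + c) / 2),
    mul_le_mul_of_nonneg_left f2 (by linarith : 0 ≤ (1 - c) / 2)]

/-- `λ(u) = sinh u / (cosh u - c)` -/
noncomputable def lm (c u : ℝ) : ℝ := sinh u / (cosh u - c)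

lemma den_pos {c : ℝ} (hc1 : c < 1) (u : ℝ) : 0 < cosh u - c := by
  have := one_le_cosh u; linarith

lemma lm_neg (c u : ℝ) : lm c (-u) = - lm c u := by
  unfold lm; rw [sinh_neg, cosh_neg, neg_div]

lemma lm_mul_le {c x y : ℝ} (hc : -1 ≤ c) (hc1 : c < 1) (hx : 0 ≤ x) (hxy : x ≤ y) :
    x * lm c y ≤ y * lm c x := by
  unfold lm
  rw [← mul_div_assoc, ← mul_div_assoc, div_le_div_iff₀ (den_pos hc1 y) (den_pos hc1 x)]
  exact cross_ineq hc hc1.le hx hxy

lemma lm_nonneg {c x : ℝ} (hc1 : c < 1) (hx : 0 ≤ x) : 0 ≤ lm c x :=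
  div_nonneg (sinh_nonneg_iff.mpr hx) (den_pos hc1 x).le

lemma lm_subadd {c x y : ℝ} (hc : -1 ≤ c) (hc1 : c < 1) (hx : 0 ≤ x) (hy : 0 ≤ y) :
    lm c (x + y) ≤ lm c x + lm c y := by
  rcases eq_or_lt_of_le hx with h | h
  · rw [← h]; simp [lm]
  · have h1 := lm_mul_le hc hc1 hx (by linarith : x ≤ x + y)
    have h2 := lm_mul_le hc hc1 hy (by linarith : y ≤ x + y)
    have h3 : 0 < x + y := by linarith
    have h4 : (x + y) * lm c (x + y) ≤ (x + y) * (lm c x + lm c y) := by nlinarith
    exact le_of_mul_le_mul_left h4 h3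

/-- `Λ` -/
noncomputable def LA (c u : ℝ) : ℝ := log (cosh u - c)

lemma LA_hasDerivAt {c : ℝ} (hc1 : c < 1) (u : ℝ) : HasDerivAt (LA c) (lm c u) u := by
  unfold LA lm
  exact ((hasDerivAt_cosh u).sub_const c).log (den_pos hc1 u).ne'

lemma LA_continuous {c : ℝ} (hc1 : c < 1) : Continuous (LA c) := by
  unfold LA
  exact (continuous_cosh.sub continuous_const).log (fun u => (den_pos hc1 u).ne')

lemma lm_continuous {c : ℝ} (hc1 : c < 1) : Continuous (lm c) := by
  unfold lm
  exact continuous_sinh.div (continuous_cosh.sub continuous_const) (fun u => (den_pos hc1 u).ne')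

/-- primitive of `Λ` -/
noncomputable def PP (c x : ℝ) : ℝ := ∫ u in (0:ℝ)..x, LA c u

lemma PP_hasDerivAt {c : ℝ} (hc1 : c < 1) (x : ℝ) : HasDerivAt (PP c) (LA c x) x :=
  intervalIntegral.integral_hasDerivAt_right ((LA_continuous hc1).intervalIntegrable _ _)
    (LA_continuous hc1).aestronglyMeasurable.stronglyMeasurableAtFilter
    (LA_continuous hc1).continuousAt

lemma N_eq {c : ℝ} (hc1 : c < 1) (b t : ℝ) :
    ∫ τ in (0:ℝ)..b, (log (cosh (t + τ) - c) - log (cosh (t - τ) - c)) =
      PP c (t + b) + PP c (t - b) - 2 * PP c t := by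
  have hcont := LA_continuous hc1
  have hi : ∀ x y, IntervalIntegrable (LA c) volume x y := fun x y =>
    hcont.intervalIntegrable _ _
  have h1 : ∫ τ in (0:ℝ)..b, (log (cosh (t + τ) - c) - log (cosh (t - τ) - c)) =
      (∫ τ in (0:ℝ)..b, LA c (t + τ)) - ∫ τ in (0:ℝ)..b, LA c (t - τ) := by
    rw [← intervalIntegral.integral_sub]
    · rfl
    · exact (hcont.comp (continuous_const.add continuous_id)).intervalIntegrable _ _
    · exact (hcont.comp (continuous_const.sub continuous_id)).intervalIntegrable _ _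
  rw [h1, intervalIntegral.integral_comp_add_left (fun x => LA c x) t,
    intervalIntegral.integral_comp_sub_left (fun x => LA c x) t]
  unfold PP
  have h2 : (∫ u in (0:ℝ)..(t + b), LA c u) - ∫ u in (0:ℝ)..t, LA c u
      = ∫ u in t..(t + b), LA c u := intervalIntegral.integral_interval_sub_left (hi _ _) (hi _ _)
  have h3 : (∫ u in (0:ℝ)..t, LA c u) - ∫ u in (0:ℝ)..(t - b), LA c u
      = ∫ u in (t - b)..t, LA c u := intervalIntegral.integral_interval_sub_left (hi _ _) (hi _ _)
  have e1 : t + 0 = t := add_zero t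
  have e2 : t - 0 = t := sub_zero t
  rw [e1, e2]
  linarith

/-- `G = N - t N'` -/
noncomputable def GG0 (c b t : ℝ) : ℝ :=
  (PP c (t + b) + PP c (t - b) - 2 * PP c t) - t * (LA c (t + b) + LA c (t - b) - 2 * LA c t)

lemma N_hasDerivAt {c : ℝ} (hc1 : c < 1) (b t : ℝ) :
    HasDerivAt (fun t => PP c (t + b) + PP c (t - b) - 2 * PP c t)
      (LA c (t + b) + LA c (t - b) - 2 * LA c t) t := by
  have h1 : HasDerivAt (fun t => PP c (t + b)) (LA c (t + b)) t := by
    simpa using (PP_hasDerivAt hc1 (t + b)).comp_add_const t b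
  have h2 : HasDerivAt (fun t => PP c (t - b)) (LA c (t - b)) t := by
    simpa using (PP_hasDerivAt hc1 (t - b)).comp_sub_const t b
  exact (h1.add h2).sub ((PP_hasDerivAt hc1 t).const_mul 2)

lemma N'_hasDerivAt {c : ℝ} (hc1 : c < 1) (b t : ℝ) :
    HasDerivAt (fun t => LA c (t + b) + LA c (t - b) - 2 * LA c t)
      (lm c (t + b) + lm c (t - b) - 2 * lm c t) t := by
  have h1 : HasDerivAt (fun t => LA c (t + b)) (lm c (t + b)) t := by
    simpa using (LA_hasDerivAt hc1 (t + b)).comp_add_const t b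
  have h2 : HasDerivAt (fun t => LA c (t - b)) (lm c (t - b)) t := by
    simpa using (LA_hasDerivAt hc1 (t - b)).comp_sub_const t b
  exact (h1.add h2).sub ((LA_hasDerivAt hc1 t).const_mul 2)

lemma GG0_hasDerivAt {c : ℝ} (hc1 : c < 1) (b t : ℝ) :
    HasDerivAt (GG0 c b) (t * (2 * lm c t - lm c (t + b) - lm c (t - b))) t := by
  have h := (N_hasDerivAt hc1 b t).sub ((hasDerivAt_id t).mul (N'_hasDerivAt hc1 b t))
  have h5 : t * (2 * lm c t - lm c (t + b) - lm c (t - b)) =
      (LA c (t + b) + LA c (t - b) - 2 * LA c t) -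
        (1 * (LA c (t + b) + LA c (t - b) - 2 * LA c t) +
          id t * (lm c (t + b) + lm c (t - b) - 2 * lm c t)) := by
    simp only [id_eq]
    ring
  rw [h5]
  exact h

lemma GG0_zero {c : ℝ} (hc1 : c < 1) (b : ℝ) : GG0 c b 0 = 0 := by
  unfold GG0
  rw [← N_eq hc1 b 0]
  have : ∫ τ in (0:ℝ)..b, (log (cosh (0 + τ) - c) - log (cosh (0 - τ) - c)) = 0 := by
    simp
  rw [this]; ring

/-- integrand of the second representation -/
noncomputable def rr (c b v : ℝ) : ℝ := (v + b) * lm c v - v * lm c (v + b)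

lemma rr_cont {c : ℝ} (hc1 : c < 1) (b : ℝ) : Continuous (rr c b) := by
  unfold rr
  have h := lm_continuous hc1
  exact ((continuous_id.add continuous_const).mul h).sub
    (continuous_id.mul (h.comp (continuous_id.add continuous_const)))

lemma GG0_eq {c : ℝ} (hc1 : c < 1) (b t : ℝ) : GG0 c b t = ∫ v in (t - b)..t, rr c b v := by
  have hi : ∀ x y, IntervalIntegrable (rr c b) volume x y := fun x y =>
    (rr_cont hc1 b).intervalIntegrable _ _
  set Q : ℝ → ℝ := fun x => ∫ v in (0:ℝ)..x, rr c b v with hQ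
  have hQd : ∀ x, HasDerivAt Q (rr c b x) x := fun x =>
    intervalIntegral.integral_hasDerivAt_right (hi _ _)
      (rr_cont hc1 b).aestronglyMeasurable.stronglyMeasurableAtFilter
      (rr_cont hc1 b).continuousAt
  have hR : ∀ t, ∫ v in (t - b)..t, rr c b v = Q t - Q (t - b) := fun t =>
    (intervalIntegral.integral_interval_sub_left (hi _ _) (hi _ _)).symm
  have hD : ∀ t, HasDerivAt (fun t => GG0 c b t - (Q t - Q (t - b))) 0 t := by
    intro t
    have h2 : HasDerivAt (fun t => Q (t - b)) (rr c b (t - b)) t := by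
      simpa using (hQd (t - b)).comp_sub_const t b
    have h3 := (GG0_hasDerivAt hc1 b t).sub ((hQd t).sub h2)
    have h4 : (0:ℝ) = t * (2 * lm c t - lm c (t + b) - lm c (t - b)) -
        (rr c b t - rr c b (t - b)) := by
      unfold rr
      have : t - b + b = t := by ring
      rw [this]; ring
    rw [h4]
    exact h3
  have hconst := is_const_of_deriv_eq_zero (f := fun t => GG0 c b t - (Q t - Q (t - b)))
    (fun t => (hD t).differentiableAt) (fun t => (hD t).deriv) t 0
  have h0 : Q 0 - Q (0 - b) = 0 := by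
    rw [← hR 0]
    have e : ∫ v in (0 - b)..0, rr c b v = ∫ v in (0 - b)..0, rr c b (-b - v) := by
      rw [intervalIntegral.integral_comp_sub_left (fun x => rr c b x) (-b)]
      congr 1 <;> ring
    have e2 : ∀ v, rr c b (-b - v) = - rr c b v := by
      intro v
      unfold rr
      have h1 : -b - v = -(v + b) := by ring
      have h2 : -(v + b) + b = -v := by ring
      rw [h1, h2, lm_neg, lm_neg]; ring
    simp only [e2, intervalIntegral.integral_neg] at e
    linarith
  rw [hR t]
  rw [GG0_zero hc1 b] at hconst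
  linarith

lemma GG0_nonneg {c : ℝ} (hc : -1 ≤ c) (hc1 : c < 1) {b t : ℝ} (hb : 0 ≤ b) (ht : 0 ≤ t) :
    0 ≤ GG0 c b t := by
  rcases le_total t b with h | h
  · have hmono : MonotoneOn (GG0 c b) (Icc 0 b) := by
      apply monotoneOn_of_deriv_nonneg (convex_Icc 0 b)
      · exact fun x _ => (GG0_hasDerivAt hc1 b x).continuousAt.continuousWithinAt
      · exact fun x _ => (GG0_hasDerivAt hc1 b x).differentiableAt.differentiableWithinAt
      · intro x hx
        rw [interior_Icc] at hx
        rw [(GG0_hasDerivAt hc1 b x).deriv]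
        refine mul_nonneg hx.1.le ?_
        have h1 : lm c (x - b) = - lm c (b - x) := by
          rw [← lm_neg]; congr 1; ring
        have h2 := lm_subadd hc hc1 (by linarith [hx.2] : 0 ≤ b - x) hx.1.le
        have h3 := lm_subadd hc hc1 (by linarith [hx.2] : 0 ≤ b - x + x) hx.1.le
        have h4 : b - x + x + x = x + b := by ring
        rw [h4] at h3
        rw [h1]; linarith
    have := hmono ⟨le_rfl, hb⟩ ⟨ht, h⟩ ht
    rw [GG0_zero hc1 b] at this
    exact this
  · rw [GG0_eq hc1 b t]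
    apply intervalIntegral.integral_nonneg (by linarith)
    intro v hv
    have hv0 : 0 ≤ v := by linarith [hv.1]
    have := lm_mul_le hc hc1 hv0 (by linarith : v ≤ v + b)
    unfold rr; linarith

/-- R2a: `N_b(t)/t` is antitone, `c = cos Δ`. -/
theorem N_div_antitone (c b t₁ t₂ : ℝ) (hc : -1 ≤ c) (hc1 : c < 1) (hb : 0 ≤ b)
    (ht₁ : 0 < t₁) (ht : t₁ ≤ t₂) :
    (∫ τ in (0:ℝ)..b, (Real.log (Real.cosh (t₂ + τ) - c) - Real.log (Real.cosh (t₂ - τ) - c))) / t₂
      ≤ (∫ τ in (0:ℝ)..b,
          (Real.log (Real.cosh (t₁ + τ) - c) - Real.log (Real.cosh (t₁ - τ) - c))) / t₁ := by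
  rw [N_eq hc1, N_eq hc1]
  set N : ℝ → ℝ := fun t => PP c (t + b) + PP c (t - b) - 2 * PP c t with hN
  have hd : ∀ t, 0 < t → HasDerivAt (fun t => N t / t) (-(GG0 c b t) / t ^ 2) t := by
    intro t ht0
    have h := (N_hasDerivAt hc1 b t).div (hasDerivAt_id t) (by simpa using ht0.ne')
    have h5 : -(GG0 c b t) / t ^ 2 = ((LA c (t + b) + LA c (t - b) - 2 * LA c t) * id t -
        (PP c (t + b) + PP c (t - b) - 2 * PP c t) * 1) / id t ^ 2 := by
      simp only [id_eq]
      unfold GG0
      ring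
    rw [h5]
    exact h
  have hanti : AntitoneOn (fun t => N t / t) (Icc t₁ t₂) := by
    apply antitoneOn_of_deriv_nonpos (convex_Icc t₁ t₂)
    · exact fun x hx => (hd x (lt_of_lt_of_le ht₁ hx.1)).continuousAt.continuousWithinAt
    · intro x hx
      exact (hd x (lt_of_lt_of_le ht₁ (interior_subset hx).1)).differentiableAt.differentiableWithinAt
    · intro x hx
      have hx0 : 0 < x := lt_of_lt_of_le ht₁ (interior_subset hx).1
      rw [(hd x hx0).deriv]
      apply div_nonpos_of_nonpos_of_nonneg _ (by positivity)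
      have := GG0_nonneg hc hc1 hb hx0.le
      linarith
  exact hanti ⟨le_rfl, ht⟩ ⟨ht, le_rfl⟩ ht

end Pool.Agent.Helper24.VS
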