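import Mathlib
import Pool.Agent.Helper90.VS.Defs
import Pool.Agent.Helper24.VS.Abel
import Pool.Agent.Helper24.VS.NDiv

/-!
R2c: the D-part over t is antitone.
-/

set_option autoImplicit false

open MeasureTheory Set

namespace Pool.Agent.Helper24.VS

open Pool.Agent.Helper90.VS

lemma sq_le_sinh_sq (u : ℝ) : u ^ 2 ≤ Real.sinh u ^ 2 := by
  rcases le_total 0 u with h | h
  · exact pow_le_pow_left₀ h (Real.self_le_sinh_iff.mpr h) 2
  · have h1 : Real.sinh u ≤ u := Real.sinh_le_self_iff.mpr h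
    nlinarith

lemma cosh_ge (s : ℝ) : 1 + s ^ 2 / 2 ≤ Real.cosh s := by
  have h1 : Real.cosh s = 1 + 2 * Real.sinh (s / 2) ^ 2 := by
    have h2 : s = 2 * (s / 2) := by ring
    conv_lhs => rw [h2, Real.cosh_two_mul]
    have := Real.cosh_sq (s / 2)
    linarith
  have h3 := sq_le_sinh_sq (s / 2)
  rw [h1]
  nlinarith

lemma Lam_bound (s x : ℝ) (hs : s ≠ 0) :
    |Lam s x| ≤ |s| + Real.log 2 + 2 * |Real.log (|s|)| := by
  unfold Lam
  have hs2 : 0 < s ^ 2 := by positivity
  have hlow : s ^ 2 / 2 ≤ Real.cosh s - Real.cos x := by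
    have := cosh_ge s; have := Real.cos_le_one x; linarith
  have hup : Real.cosh s - Real.cos x ≤ 2 * Real.exp |s| := by
    have h1 : Real.cosh s ≤ Real.exp |s| := by
      rw [← Real.cosh_abs, Real.cosh_eq]
      have : Real.exp (-|s|) ≤ Real.exp |s| :=
        Real.exp_le_exp.mpr (by have := abs_nonneg s; linarith)
      linarith
    have h2 : -1 ≤ Real.cos x := Real.neg_one_le_cos x
    have h3 : 1 ≤ Real.exp |s| := Real.one_le_exp (abs_nonneg s)
    linarith
  have hpos : 0 < Real.cosh s - Real.cos x := lt_of_lt_of_le (by positivity) hlow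
  have hl2 : 0 ≤ Real.log 2 := Real.log_nonneg (by norm_num)
  rw [abs_le]
  constructor
  · have h1 := Real.log_le_log (by positivity) hlow
    have h2 : Real.log (s ^ 2 / 2) = 2 * Real.log |s| - Real.log 2 := by
      rw [Real.log_div (by positivity) (by norm_num), Real.log_pow, Real.log_abs]
      norm_num
    have h3 : -|Real.log (|s|)| ≤ Real.log |s| := neg_abs_le _
    have := abs_nonneg s
    linarith
  · have h1 := Real.log_le_log hpos hup
    rw [Real.log_mul (by norm_num) (Real.exp_pos _).ne', Real.log_exp] at h1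
    have := abs_nonneg (Real.log |s|)
    linarith

lemma measurable_Lam2 {α : Type*} [MeasurableSpace α] {f g : α → ℝ} (hf : Measurable f)
    (hg : Measurable g) : Measurable (fun z => Lam (f z) (g z)) := by
  unfold Lam
  exact Real.measurable_log.comp
    ((Real.continuous_cosh.measurable.comp hf).sub (Real.continuous_cos.measurable.comp hg))

/-- the kernel of `LL` -/
noncomputable def kk (X s x : ℝ) : ℝ := Lam s (X - x) + Lam s (X + x)

lemma kk_bound (X s x : ℝ) (hs : s ≠ 0) :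
    |kk X s x| ≤ 2 * (|s| + Real.log 2 + 2 * |Real.log (|s|)|) := by
  unfold kk
  have h1 := Lam_bound s (X - x) hs
  have h2 := Lam_bound s (X + x) hs
  have := abs_add_le (Lam s (X - x)) (Lam s (X + x))
  linarith

lemma measurable_kk {α : Type*} [MeasurableSpace α] (X : ℝ) {f g : α → ℝ} (hf : Measurable f)
    (hg : Measurable g) : Measurable (fun z => kk X (f z) (g z)) := by
  unfold kk
  exact (measurable_Lam2 hf (measurable_const.sub hg)).add
    (measurable_Lam2 hf (measurable_const.add hg))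

lemma kk_integrableOn (X s : ℝ) (hs : s ≠ 0) : IntegrableOn (kk X s) (Ioc 0 Real.pi) := by
  refine Measure.integrableOn_of_bounded (M := 2 * (|s| + Real.log 2 + 2 * |Real.log (|s|)|)) ?_ ?_ ?_
  · simp
  · exact (measurable_kk X measurable_const measurable_id).aestronglyMeasurable
  · exact Filter.Eventually.of_forall (fun x => kk_bound X s x hs)

lemma LL_eq (a X s : ℝ) (ha : 0 ≤ a) (haπ : a ≤ Real.pi) :
    LL a X s = ∫ x in Ioc 0 Real.pi, (if a < x then kk X s x else 0) := by
  unfold LL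
  rw [intervalIntegral.integral_of_le haπ, ← integral_indicator measurableSet_Ioc,
    ← integral_indicator measurableSet_Ioc]
  congr 1
  funext x
  by_cases hx : x ∈ Ioc 0 Real.pi
  · rw [indicator_of_mem hx]
    by_cases hax : a < x
    · rw [if_pos hax, indicator_of_mem (show x ∈ Ioc a Real.pi from ⟨hax, hx.2⟩)]
      rfl
    · rw [if_neg hax, indicator_of_notMem]
      intro h; exact hax h.1
  · rw [indicator_of_notMem hx, indicator_of_notMem]
    intro h; exact hx ⟨lt_of_le_of_lt ha h.1, h.2⟩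

/-- the two-variable integrand -/
noncomputable def FT (m : ℕ) (a : ℝ → ℝ) (X t : ℝ) (τ x : ℝ) : ℝ :=
  wt m τ * (if a τ < x then kk X (t + τ) x - kk X (t - τ) x else 0)

lemma wt_nonneg (m : ℕ) (τ : ℝ) : 0 ≤ wt m τ := (Real.exp_pos _).le

lemma wt_le_one (m : ℕ) {τ : ℝ} (hτ : 0 ≤ τ) : wt m τ ≤ 1 := by
  unfold wt
  rw [Real.exp_le_one_iff]
  have : 0 ≤ 2 * τ / m := by positivity
  linarith

lemma wt_antitone (m : ℕ) : Antitone (wt m) := by
  intro x y hxy
  unfold wt
  apply Real.exp_le_exp.mpr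
  have : 2 * x / m ≤ 2 * y / m := div_le_div_of_nonneg_right (by linarith) (by positivity)
  linarith

lemma measurable_wt (m : ℕ) : Measurable (wt m) := (wt_antitone m).measurable

/-- dominating function -/
noncomputable def g0 (t τ : ℝ) : ℝ :=
  2 * (|t + τ| + Real.log 2 + 2 * |Real.log (|t + τ|)|) +
  2 * (|t - τ| + Real.log 2 + 2 * |Real.log (|t - τ|)|)

lemma g0_integrable (t : ℝ) : IntegrableOn (g0 t) (Ioc 0 10) := by
  have hlog1 : IntervalIntegrable (fun τ : ℝ => Real.log |t + τ|) volume 0 10 := by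
    have h := (intervalIntegral.intervalIntegrable_log' (a := t + 0) (b := t + 10)).comp_add_left t
    simp only [Real.log_abs]
    simpa using h
  have hlog2 : IntervalIntegrable (fun τ : ℝ => Real.log |t - τ|) volume 0 10 := by
    have h := (intervalIntegral.intervalIntegrable_log' (a := t - 0) (b := t - 10)).comp_sub_left t
    simp only [Real.log_abs]
    simpa using h
  have h1 : IntervalIntegrable (fun τ : ℝ => |t + τ| + Real.log 2) volume 0 10 :=
    ((continuous_const.add continuous_id).abs.add continuous_const).intervalIntegrable _ _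
  have h2 : IntervalIntegrable (fun τ : ℝ => |t - τ| + Real.log 2) volume 0 10 :=
    ((continuous_const.sub continuous_id).abs.add continuous_const).intervalIntegrable _ _
  have h3 := ((h1.add (hlog1.abs.const_mul 2)).const_mul 2).add
    ((h2.add (hlog2.abs.const_mul 2)).const_mul 2)
  have h4 := (intervalIntegrable_iff_integrableOn_Ioc_of_le (by norm_num : (0:ℝ) ≤ 10)).mp h3
  exact h4

lemma measurable_FT (m : ℕ) (a : ℝ → ℝ) (ha : Prof a) (X t : ℝ) :
    Measurable (Function.uncurry (FT m a X t)) := by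
  have hS : MeasurableSet {z : ℝ × ℝ | a z.1 < z.2} :=
    measurableSet_lt (ha.mono.measurable.comp measurable_fst) measurable_snd
  have h1 : Measurable (fun z : ℝ × ℝ => kk X (t + z.1) z.2 - kk X (t - z.1) z.2) :=
    (measurable_kk X (measurable_const.add measurable_fst) measurable_snd).sub
      (measurable_kk X (measurable_const.sub measurable_fst) measurable_snd)
  have h2 : Measurable (fun z : ℝ × ℝ =>
      if a z.1 < z.2 then kk X (t + z.1) z.2 - kk X (t - z.1) z.2 else 0) :=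
    Measurable.ite hS h1 measurable_const
  exact ((measurable_wt m).comp measurable_fst).mul h2

lemma FT_bound (m : ℕ) (a : ℝ → ℝ) (X t τ x : ℝ) (ht : 0 < t) (hτ : 0 < τ) (hτt : τ ≠ t) :
    |FT m a X t τ x| ≤ g0 t τ := by
  have h1 := kk_bound X (t + τ) x (by positivity)
  have h2 := kk_bound X (t - τ) x (sub_ne_zero.mpr (Ne.symm hτt))
  have hg : |kk X (t + τ) x - kk X (t - τ) x| ≤ g0 t τ := by
    have := abs_sub (kk X (t + τ) x) (kk X (t - τ) x)
    unfold g0; linarith
  have hg0 : 0 ≤ g0 t τ := (abs_nonneg _).trans hg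
  unfold FT
  rw [abs_mul, abs_of_nonneg (wt_nonneg m τ)]
  have h3 : |if a τ < x then kk X (t + τ) x - kk X (t - τ) x else 0| ≤ g0 t τ := by
    split_ifs
    · exact hg
    · simpa using hg0
  calc wt m τ * |if a τ < x then kk X (t + τ) x - kk X (t - τ) x else 0|
      ≤ 1 * g0 t τ := mul_le_mul (wt_le_one m hτ.le) h3 (abs_nonneg _) zero_le_one
    _ = g0 t τ := one_mul _

lemma integrable_FT (m : ℕ) (a : ℝ → ℝ) (ha : Prof a) (X t : ℝ) (ht : 0 < t) :
    Integrable (Function.uncurry (FT m a X t))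
      ((volume.restrict (Ioc (0:ℝ) 10)).prod (volume.restrict (Ioc 0 Real.pi))) := by
  have hg : Integrable (fun z : ℝ × ℝ => g0 t z.1)
      ((volume.restrict (Ioc (0:ℝ) 10)).prod (volume.restrict (Ioc 0 Real.pi))) :=
    Integrable.comp_fst (g0_integrable t) _
  refine hg.mono' (measurable_FT m a ha X t).aestronglyMeasurable ?_
  have h1 : ∀ᵐ τ ∂(volume.restrict (Ioc (0:ℝ) 10)), 0 < τ ∧ τ ≠ t := by
    have h2 : ∀ᵐ τ : ℝ, τ ≠ t := by rw [ae_iff]; simp
    filter_upwards [ae_restrict_mem measurableSet_Ioc, ae_restrict_of_ae h2] with τ h3 h4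
    exact ⟨h3.1, h4⟩
  have h2 := Measure.quasiMeasurePreserving_fst (μ := volume.restrict (Ioc (0:ℝ) 10))
    (ν := volume.restrict (Ioc 0 Real.pi)) |>.ae h1
  filter_upwards [h2] with z hz
  rw [Real.norm_eq_abs]
  exact FT_bound m a X t z.1 z.2 ht hz.1 hz.2

lemma J_eq (m : ℕ) (a : ℝ → ℝ) (ha : Prof a) (X t : ℝ) (ht : 0 < t) :
    ∫ τ in (0:ℝ)..10, wt m τ * (LL (a τ) X (t + τ) - LL (a τ) X (t - τ)) =
      ∫ τ in Ioc (0:ℝ) 10, ∫ x in Ioc 0 Real.pi, FT m a X t τ x := by
  rw [intervalIntegral.integral_of_le (by norm_num)]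
  apply integral_congr_ae
  have h2 : ∀ᵐ τ : ℝ, τ ≠ t := by rw [ae_iff]; simp
  filter_upwards [ae_restrict_mem measurableSet_Ioc, ae_restrict_of_ae h2] with τ h3 h4
  have hs1 : t + τ ≠ 0 := by have := h3.1; positivity
  have hs2 : t - τ ≠ 0 := sub_ne_zero.mpr (Ne.symm h4)
  rw [LL_eq _ _ _ (ha.nonneg τ) (ha.le_pi τ), LL_eq _ _ _ (ha.nonneg τ) (ha.le_pi τ)]
  have hS : MeasurableSet {x : ℝ | a τ < x} := measurableSet_Ioi
  have hi : ∀ s, s ≠ 0 → Integrable (fun x => if a τ < x then kk X s x else 0)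
      (volume.restrict (Ioc 0 Real.pi)) := by
    intro s hs
    refine ((kk_integrableOn X s hs).indicator hS).congr
      (Filter.Eventually.of_forall (fun x => ?_))
    by_cases h : a τ < x
    · rw [indicator_of_mem (show x ∈ {x : ℝ | a τ < x} from h)]; simp [h]
    · rw [indicator_of_notMem (show x ∉ {x : ℝ | a τ < x} from h)]; simp [h]
  rw [← integral_sub (hi _ hs1) (hi _ hs2), ← integral_const_mul]
  congr 1
  funext x
  unfold FT
  by_cases h : a τ < x
  · simp only [if_pos h]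
  · simp only [if_neg h, sub_zero]

/-- inner integral -/
lemma inner_nonneg (m : ℕ) (a : ℝ → ℝ) (ha : Prof a) (X : ℝ) (hX : X ∈ Icc 0 Real.pi)
    (t₁ t₂ : ℝ) (ht₁ : 0 < t₁) (ht : t₁ ≤ t₂) (x : ℝ) (hx : x ∈ Ioo 0 Real.pi) (hxX : x ≠ X) :
    0 ≤ ∫ τ in Ioc (0:ℝ) 10, (FT m a X t₁ τ x / t₁ - FT m a X t₂ τ x / t₂) := by
  have hpi := Real.pi_pos
  have hc1 : Real.cos (X - x) < 1 := by
    refine lt_of_le_of_ne (Real.cos_le_one _) ?_
    intro h
    have h1 := (Real.cos_eq_one_iff_of_lt_of_lt (x := X - x) (by linarith [hx.2, hX.1])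
      (by linarith [hx.1, hX.2])).mp h
    exact hxX (by linarith)
  have hc2 : Real.cos (X + x) < 1 := by
    refine lt_of_le_of_ne (Real.cos_le_one _) ?_
    intro h
    have h1 := (Real.cos_eq_one_iff_of_lt_of_lt (x := X + x) (by linarith [hx.1, hX.1])
      (by linarith [hx.2, hX.2])).mp h
    linarith [hx.1, hX.1]
  set q : ℝ → ℝ := fun τ =>
    ((Lam (t₁ + τ) (X - x) - Lam (t₁ - τ) (X - x)) / t₁
      - (Lam (t₂ + τ) (X - x) - Lam (t₂ - τ) (X - x)) / t₂) +
    ((Lam (t₁ + τ) (X + x) - Lam (t₁ - τ) (X + x)) / t₁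
      - (Lam (t₂ + τ) (X + x) - Lam (t₂ - τ) (X + x)) / t₂) with hq
  set p : ℝ → ℝ := fun τ => wt m τ * (if a τ < x then 1 else 0) with hp
  have hcontA : ∀ (c t : ℝ), c < 1 → Continuous (fun τ => LA c (t + τ) - LA c (t - τ)) :=
    fun c t hc => ((LA_continuous hc).comp (continuous_const.add continuous_id)).sub
      ((LA_continuous hc).comp (continuous_const.sub continuous_id))
  have hLam : ∀ s y, Lam s y = LA (Real.cos y) s := fun s y => rfl
  have hcq1 : Continuous (fun τ => (Lam (t₁ + τ) (X - x) - Lam (t₁ - τ) (X - x)) / t₁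
      - (Lam (t₂ + τ) (X - x) - Lam (t₂ - τ) (X - x)) / t₂) := by
    simp only [hLam]
    exact ((hcontA _ t₁ hc1).div_const _).sub ((hcontA _ t₂ hc1).div_const _)
  have hcq2 : Continuous (fun τ => (Lam (t₁ + τ) (X + x) - Lam (t₁ - τ) (X + x)) / t₁
      - (Lam (t₂ + τ) (X + x) - Lam (t₂ - τ) (X + x)) / t₂) := by
    simp only [hLam]
    exact ((hcontA _ t₁ hc2).div_const _).sub ((hcontA _ t₂ hc2).div_const _)
  have hpart : ∀ c, -1 ≤ c → c < 1 → ∀ b ∈ Icc (0:ℝ) 10,
      0 ≤ ∫ τ in (0:ℝ)..b, ((LA c (t₁ + τ) - LA c (t₁ - τ)) / t₁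
        - (LA c (t₂ + τ) - LA c (t₂ - τ)) / t₂) := by
    intro c hc hc' b hb
    rw [intervalIntegral.integral_sub (((hcontA c t₁ hc').div_const _).intervalIntegrable _ _)
      (((hcontA c t₂ hc').div_const _).intervalIntegrable _ _),
      intervalIntegral.integral_div, intervalIntegral.integral_div]
    have := N_div_antitone c b t₁ t₂ hc hc' hb.1 ht₁ ht
    unfold LA
    linarith
  have habel := abel_nonneg 10 (by norm_num) p q
    (by
      intro y _ z _ hyz
      simp only [hp]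
      by_cases h1 : a z < x
      · have h2 : a y < x := lt_of_le_of_lt (ha.mono hyz) h1
        simp only [h1, h2, if_true, mul_one]
        exact wt_antitone m hyz
      · simp only [h1, if_false, mul_zero]
        split_ifs
        · simpa using wt_nonneg m y
        · simp)
    (by
      intro y _
      simp only [hp]
      split_ifs
      · simpa using wt_nonneg m y
      · simp)
    ((hcq1.add hcq2).intervalIntegrable _ _)
    (by
      intro b hb
      simp only [hq]
      rw [intervalIntegral.integral_add (hcq1.intervalIntegrable _ _)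
        (hcq2.intervalIntegrable _ _)]
      exact add_nonneg (hpart _ (Real.neg_one_le_cos _) hc1 b hb)
        (hpart _ (Real.neg_one_le_cos _) hc2 b hb))
  rw [intervalIntegral.integral_of_le (by norm_num)] at habel
  refine habel.trans (le_of_eq ?_)
  congr 1
  funext τ
  simp only [hp, hq, FT, kk]
  split_ifs <;> ring

/-- R2c: the D-part over t is antitone (Fubini + R2a + R2b). -/
theorem Dpart (m : ℕ) (_hm : 1 ≤ m) (a : ℝ → ℝ) (ha : Prof a) (X : ℝ) (hX : X ∈ Icc 0 Real.pi)
    (t₁ t₂ : ℝ) (ht₁ : 0 < t₁) (ht : t₁ ≤ t₂) (_ht₂ : t₂ ≤ 10) :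
    (∫ τ in (0:ℝ)..10, wt m τ * (LL (a τ) X (t₂ + τ) - LL (a τ) X (t₂ - τ))) / t₂
      ≤ (∫ τ in (0:ℝ)..10, wt m τ * (LL (a τ) X (t₁ + τ) - LL (a τ) X (t₁ - τ))) / t₁ := by
  have ht₂0 : 0 < t₂ := lt_of_lt_of_le ht₁ ht
  rw [J_eq m a ha X t₁ ht₁, J_eq m a ha X t₂ ht₂0, ← sub_nonneg]
  have I1 := integrable_FT m a ha X t₁ ht₁
  have I2 := integrable_FT m a ha X t₂ ht₂0
  rw [integral_integral_swap I1, integral_integral_swap I2]
  rw [← integral_div, ← integral_div]
  have J1 : Integrable (fun x => (∫ τ in Ioc (0:ℝ) 10, FT m a X t₁ τ x) / t₁)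
      (volume.restrict (Ioc 0 Real.pi)) := (I1.integral_prod_right).div_const _
  have J2 : Integrable (fun x => (∫ τ in Ioc (0:ℝ) 10, FT m a X t₂ τ x) / t₂)
      (volume.restrict (Ioc 0 Real.pi)) := (I2.integral_prod_right).div_const _
  rw [← integral_sub J1 J2]
  apply integral_nonneg_of_ae
  have K1 := I1.prod_left_ae
  have K2 := I2.prod_left_ae
  have h2 : ∀ᵐ x : ℝ, x ≠ X ∧ x ≠ Real.pi := by
    have h3 : ∀ᵐ x : ℝ, x ≠ X := by rw [ae_iff]; simp
    have h4 : ∀ᵐ x : ℝ, x ≠ Real.pi := by rw [ae_iff]; simp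
    filter_upwards [h3, h4] with x h5 h6 using ⟨h5, h6⟩
  filter_upwards [ae_restrict_mem measurableSet_Ioc, ae_restrict_of_ae h2, K1, K2]
    with x hx1 hx2 hK1' hK2'
  have hK1 : Integrable (fun τ => FT m a X t₁ τ x) (volume.restrict (Ioc (0:ℝ) 10)) := hK1'
  have hK2 : Integrable (fun τ => FT m a X t₂ τ x) (volume.restrict (Ioc (0:ℝ) 10)) := hK2'
  have hx3 : x ∈ Ioo 0 Real.pi := ⟨hx1.1, lt_of_le_of_ne hx1.2 hx2.2⟩
  have := inner_nonneg m a ha X hX t₁ t₂ ht₁ ht x hx3 hx2.1
  rw [integral_sub (hK1.div_const _) (hK2.div_const _), integral_div, integral_div] at this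
  exact this

end Pool.Agent.Helper24.VS
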